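import Pool.Agent.Q203.StrongNormal

/-!
# `T² - μ(T)²` is strongly normal for every self-adjoint `T` on a smooth complex Banach space
-/

namespace Pool.Agent.Results.MP_cd4dc1_an.SquareMinusModulus

open Pool.Agent.Q203.StrongNormal

/-- For every smooth complex Banach space `X` and every self-adjoint `T` the operator
`T² - μ(T)² I` is strongly normal, where `μ(T)` is the minimum modulus. -/
theorem result (X : Type*) [NormedAddCommGroup X] [NormedSpace ℂ X] [CompleteSpace X]
    (hX : IsSmooth X) (T : X →L[ℂ] X) (hT : IsSelfAdj T) :
    StronglyNormal (T * T - ((minModulus T ^ 2 : ℝ) : ℂ) • (1 : X →L[ℂ] X)) :=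
  question_two hX hT

end Pool.Agent.Results.MP_cd4dc1_an.SquareMinusModulus
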